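import Pool.Agent.TH60.LR.Defs

set_option autoImplicit false

/-! # LR-6: the tree of a nested family of cuts -/

namespace Pool.Agent.TH386.J556

open Pool.Agent.TH60.LR
open Pointwise

section

variable {Γ V : Type} [Group Γ] [MulAction Γ V]

/-- The vertices: orientations of the family of cuts. -/
def IsVert (𝓔 : Set (Set V)) (U : Set (Set V)) : Prop :=
  U ⊆ 𝓔 ∧ (∀ A ∈ 𝓔, (A ∈ U ↔ Aᶜ ∉ U)) ∧ (∀ A ∈ U, ∀ B ∈ 𝓔, A ⊆ B → B ∈ U) ∧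
    ∀ v : V, {A | A ∈ U ∧ v ∉ A}.Finite

lemma smul_mem_iff {𝓔 : Set (Set V)} (h1 : ∀ g : Γ, ∀ A ∈ 𝓔, g • A ∈ 𝓔) (g : Γ) (A : Set V) :
    g • A ∈ 𝓔 ↔ A ∈ 𝓔 := by
  constructor
  · intro h
    have := h1 g⁻¹ _ h
    rwa [inv_smul_smul] at this
  · exact h1 g A

lemma isVert_smul {𝓔 : Set (Set V)} (h1 : ∀ g : Γ, ∀ A ∈ 𝓔, g • A ∈ 𝓔) (g : Γ)
    {U : Set (Set V)} (hU : IsVert 𝓔 U) : IsVert 𝓔 (g • U) := by
  obtain ⟨ha, hb, hc, hd⟩ := hU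
  refine ⟨?_, ?_, ?_, ?_⟩
  · intro A hA
    rw [Set.mem_smul_set_iff_inv_smul_mem] at hA
    exact (smul_mem_iff h1 g⁻¹ A).1 (ha hA)
  · intro A hA
    rw [Set.mem_smul_set_iff_inv_smul_mem, Set.mem_smul_set_iff_inv_smul_mem, Set.smul_set_compl]
    exact hb _ (h1 g⁻¹ A hA)
  · intro A hA B hB hAB
    rw [Set.mem_smul_set_iff_inv_smul_mem] at hA ⊢
    exact hc _ hA _ (h1 g⁻¹ B hB) (Set.smul_set_mono hAB)
  · intro v
    have h := (hd (g⁻¹ • v)).image (fun A => g • A)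
    refine h.subset ?_
    rintro A ⟨hA, hv⟩
    rw [Set.mem_smul_set_iff_inv_smul_mem] at hA
    refine ⟨g⁻¹ • A, ⟨hA, ?_⟩, smul_inv_smul g A⟩
    rwa [Set.smul_mem_smul_set_iff]

/-- The end vertex of the edge `A`. -/
def tv (𝓔 : Set (Set V)) (A : Set V) : Set (Set V) := {B | B ∈ 𝓔 ∧ (A ⊆ B ∨ Aᶜ ⊂ B)}

lemma isVert_tv {𝓔 : Set (Set V)} (h2 : ∀ A ∈ 𝓔, Aᶜ ∈ 𝓔) (h3 : ∀ A ∈ 𝓔, A.Nonempty)
    (h4 : ∀ A ∈ 𝓔, ∀ B ∈ 𝓔, Nested A B)
    (h5 : ∀ u v : V, {A | A ∈ 𝓔 ∧ u ∈ A ∧ v ∉ A}.Finite) {A : Set V} (hA : A ∈ 𝓔) :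
    IsVert 𝓔 (tv 𝓔 A) := by
  refine ⟨fun B hB => hB.1, ?_, ?_, ?_⟩
  · intro B hB
    obtain ⟨a, ha⟩ := h3 A hA
    obtain ⟨a', ha'⟩ := h3 _ (h2 A hA)
    constructor
    · rintro ⟨-, h | h⟩ ⟨-, h' | h'⟩
      · exact h' ha (h ha)
      · exact h'.2 (Set.compl_subset_compl.2 h)
      · exact h.2 (Set.subset_compl_comm.1 h')
      · exact h'.1 ha' (h.1 ha')
    · intro hn
      refine ⟨hB, ?_⟩
      by_contra hcon
      push Not at hcon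
      apply hn
      refine ⟨h2 B hB, ?_⟩
      rcases h4 A hA B hB with h | h | h | h
      · exact absurd h hcon.1
      · right
        refine ⟨Set.compl_subset_compl.2 h, fun h' => hcon.1 (Set.compl_subset_compl.1 h')⟩
      · exact Or.inl h
      · left
        have hBA : B ⊆ Aᶜ := by
          by_contra h'
          exact hcon.2 ⟨h, h'⟩
        exact Set.subset_compl_comm.1 hBA
  · rintro B ⟨hB, h | h⟩ C hC hBC
    · exact ⟨hC, Or.inl (h.trans hBC)⟩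
    · exact ⟨hC, Or.inr (h.trans_subset hBC)⟩
  · intro v
    obtain ⟨a, ha⟩ := h3 A hA
    obtain ⟨a', ha'⟩ := h3 _ (h2 A hA)
    refine ((h5 a v).union (h5 a' v)).subset ?_
    rintro B ⟨⟨hB, h | h⟩, hv⟩
    · exact Or.inl ⟨hB, h ha, hv⟩
    · exact Or.inr ⟨hB, h.1 ha', hv⟩

lemma smul_tv {𝓔 : Set (Set V)} (h1 : ∀ g : Γ, ∀ A ∈ 𝓔, g • A ∈ 𝓔) (g : Γ) (A : Set V) :
    g • tv 𝓔 A = tv 𝓔 (g • A) := by
  ext B
  rw [Set.mem_smul_set_iff_inv_smul_mem]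
  unfold tv
  simp only [Set.mem_ofPred_eq, smul_mem_iff h1]
  have e1 : A ⊆ g⁻¹ • B ↔ g • A ⊆ B := by
    rw [← Set.smul_set_subset_smul_set_iff (a := g), smul_inv_smul]
  have e2 : Aᶜ ⊂ g⁻¹ • B ↔ (g • A)ᶜ ⊂ B := by
    rw [ssubset_iff_subset_not_subset, ssubset_iff_subset_not_subset, ← Set.smul_set_compl]
    have f1 : Aᶜ ⊆ g⁻¹ • B ↔ g • Aᶜ ⊆ B := by
      rw [← Set.smul_set_subset_smul_set_iff (a := g), smul_inv_smul]
    have f2 : g⁻¹ • B ⊆ Aᶜ ↔ B ⊆ g • Aᶜ := by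
      rw [← Set.smul_set_subset_smul_set_iff (a := g), smul_inv_smul]
    rw [f1, f2]
  rw [e1, e2]

end

section

variable {Γ V : Type} [Group Γ] [MulAction Γ V] [Nonempty V]

/-- The tree of the cuts. -/
noncomputable def tree (𝓔 : Set (Set V)) (h1 : ∀ g : Γ, ∀ A ∈ 𝓔, g • A ∈ 𝓔)
    (h2 : ∀ A ∈ 𝓔, Aᶜ ∈ 𝓔) (h3 : ∀ A ∈ 𝓔, A.Nonempty) (h4 : ∀ A ∈ 𝓔, ∀ B ∈ 𝓔, Nested A B)
    (h5 : ∀ u v : V, {A | A ∈ 𝓔 ∧ u ∈ A ∧ v ∉ A}.Finite) : GTree Γ where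
  X := {U : Set (Set V) // IsVert 𝓔 U}
  E := {A : Set V // A ∈ 𝓔}
  actX :=
    { smul := fun g U => ⟨g • U.1, isVert_smul h1 g U.2⟩
      one_smul := fun U => Subtype.ext (one_smul Γ U.1)
      mul_smul := fun g h U => Subtype.ext (mul_smul g h U.1) }
  actE :=
    { smul := fun g A => ⟨g • A.1, h1 g A.1 A.2⟩
      one_smul := fun A => Subtype.ext (one_smul Γ A.1)
      mul_smul := fun g h A => Subtype.ext (mul_smul g h A.1) }
  inv := fun A => ⟨A.1ᶜ, h2 A.1 A.2⟩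
  t := fun A => ⟨tv 𝓔 A.1, isVert_tv h2 h3 h4 h5 A.2⟩
  side := fun A => {U | A.1 ∈ U.1}
  inv_inv := fun A => Subtype.ext (compl_compl A.1)
  side_inv := by
    rintro ⟨A, hA⟩
    ext ⟨U, hU⟩
    show Aᶜ ∈ U ↔ ¬ (A ∈ U)
    rw [hU.2.1 A hA, not_not]
  fin_sep := by
    rintro ⟨U, hU⟩ ⟨W, hW⟩
    obtain ⟨v⟩ := ‹Nonempty V›
    have f1 : {A : Set V | A ∈ U ∧ v ∉ A}.Finite := hU.2.2.2 v
    have f2 : {A : Set V | Aᶜ ∈ W ∧ v ∉ Aᶜ}.Finite := by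
      have h := (hW.2.2.2 v).image (fun A : Set V => Aᶜ)
      refine h.subset ?_
      rintro A ⟨h1, h2⟩
      exact ⟨Aᶜ, ⟨h1, h2⟩, compl_compl A⟩
    have f3 : {A : Set V | A ∈ U ∧ A ∉ W}.Finite := by
      refine (f1.union f2).subset ?_
      rintro A ⟨ha, hb⟩
      by_cases hv : v ∈ A
      · right
        refine ⟨?_, fun h => h hv⟩
        by_contra hc
        exact hb ((hW.2.1 A (hU.1 ha)).2 hc)
      · exact Or.inl ⟨ha, hv⟩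
    exact f3.preimage Subtype.val_injective.injOn
  sep := by
    rintro ⟨U, hU⟩ ⟨W, hW⟩ hne
    have hUW : U ≠ W := fun h => hne (Subtype.ext h)
    by_cases hsub : U ⊆ W
    · have : ¬ W ⊆ U := fun h => hUW (Set.Subset.antisymm hsub h)
      obtain ⟨A, hAW, hAU⟩ := Set.not_subset.1 this
      have hA : A ∈ 𝓔 := hW.1 hAW
      refine ⟨⟨Aᶜ, h2 A hA⟩, ?_, ?_⟩
      · show Aᶜ ∈ U
        by_contra hc
        exact hAU ((hU.2.1 A hA).2 hc)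
      · show Aᶜ ∉ W
        exact (hW.2.1 A hA).1 hAW
    · obtain ⟨A, hAU, hAW⟩ := Set.not_subset.1 hsub
      exact ⟨⟨A, hU.1 hAU⟩, hAU, hAW⟩
  t_mem := by
    rintro ⟨A, hA⟩
    show A ∈ tv 𝓔 A
    exact ⟨hA, Or.inl subset_rfl⟩
  t_inv := by
    rintro ⟨A, hA⟩ ⟨B, hB⟩ hne hne'
    have hBA : B ≠ A := fun h => hne (Subtype.ext h)
    have hBA' : B ≠ Aᶜ := fun h => hne' (Subtype.ext h)
    show B ∈ tv 𝓔 A ↔ B ∈ tv 𝓔 Aᶜ
    unfold tv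
    simp only [Set.mem_ofPred_eq, compl_compl]
    constructor
    · rintro ⟨-, h | h⟩
      · exact ⟨hB, Or.inr (h.ssubset_of_ne hBA.symm)⟩
      · exact ⟨hB, Or.inl h.1⟩
    · rintro ⟨-, h | h⟩
      · exact ⟨hB, Or.inr (h.ssubset_of_ne hBA'.symm)⟩
      · exact ⟨hB, Or.inl h.1⟩
  nested := by
    rintro ⟨A, hA⟩ ⟨B, hB⟩
    rcases h4 A hA B hB with h | h | h | h
    · left
      rintro ⟨U, hU⟩ hAU
      exact hU.2.2.1 A hAU B hB h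
    · right; left
      rintro ⟨U, hU⟩ hBU
      exact hU.2.2.1 B hBU A hA h
    · right; right; left
      rintro ⟨U, hU⟩ hAU
      show ¬ (B ∈ U)
      intro hBU
      exact (hU.2.1 B hB).1 hBU (hU.2.2.1 A hAU _ (h2 B hB) h)
    · right; right; right
      rintro ⟨U, hU⟩ hAU
      have hA' : Aᶜ ∈ U := by
        by_contra hc
        exact hAU ((hU.2.1 A hA).2 hc)
      exact hU.2.2.1 _ hA' B hB h
  smul_inv := by
    rintro g ⟨A, hA⟩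
    exact Subtype.ext (Set.smul_set_compl (a := g) (s := A))
  smul_t := by
    rintro g ⟨A, hA⟩
    exact Subtype.ext (smul_tv h1 g A)
  smul_side := by
    rintro g ⟨A, hA⟩ ⟨U, hU⟩
    show g • A ∈ g • U ↔ A ∈ U
    exact Set.smul_mem_smul_set_iff

end

lemma no_fixed {Γ V : Type} [Group Γ] [MulAction Γ V] {𝓔 : Set (Set V)} {U : Set (Set V)}
    (hU : IsVert 𝓔 U) (g : Γ) (hg : g • U = U) (v : V) (A : Set V) (hA : A ∈ U)
    (hp : ∀ᶠ i : ℕ in Filter.atTop, g ^ i • v ∈ A)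
    (hm : ∀ᶠ i : ℕ in Filter.atTop, g⁻¹ ^ i • v ∉ A) : False := by
  have hk : ∀ k : ℕ, g ^ k • A ∈ U := by
    intro k
    induction k with
    | zero => simpa using hA
    | succ k ih =>
      rw [pow_succ', mul_smul]
      have : g • (g ^ k • A) ∈ g • U := Set.smul_mem_smul_set ih
      rwa [hg] at this
  rw [Filter.eventually_atTop] at hp hm
  obtain ⟨a, ha⟩ := hp
  obtain ⟨b, hb⟩ := hm
  have hfin := hU.2.2.2 v
  have hmaps : Set.MapsTo (fun k : ℕ => g ^ k • A) (Set.Ici b) {B | B ∈ U ∧ v ∉ B} := by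
    intro k hkb
    refine ⟨hk k, ?_⟩
    rw [Set.mem_smul_set_iff_inv_smul_mem, ← inv_pow]
    exact hb k hkb
  obtain ⟨k, -, l, -, hkl, hEq⟩ :=
    Set.Infinite.exists_lt_map_eq_of_mapsTo (Set.Ici_infinite b) hmaps hfin
  have hEq' : g ^ k • A = g ^ l • A := hEq
  obtain ⟨m, hm⟩ : ∃ m, l = k + m := ⟨l - k, by omega⟩
  have hm1 : 1 ≤ m := by omega
  have hfix : g ^ m • A = A := by
    rw [hm, pow_add, mul_smul] at hEq'
    exact (smul_left_cancel _ hEq').symm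
  have hfixj : ∀ j : ℕ, g ^ (m * j) • A = A := by
    intro j
    induction j with
    | zero => simp
    | succ j ih => rw [Nat.mul_succ, pow_add, mul_smul, hfix, ih]
  have hvA : v ∈ A := by
    have h := ha (m * a) (by nlinarith)
    have h2 := hfixj a
    rw [← h2, Set.smul_mem_smul_set_iff] at h
    exact h
  have hvA' : v ∉ A := by
    have h := hb (m * b) (by nlinarith)
    intro hv
    apply h
    rw [inv_pow, ← Set.mem_smul_set_iff_inv_smul_mem, hfixj b]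
    exact hv
  exact hvA' hvA

/-- LR-6. -/
theorem treeOfCuts : TreeOfCuts := by
  intro Γ V _ _ _ 𝓔 h1 h2 h3 h4 h5 h6
  refine ⟨tree 𝓔 h1 h2 h3 h4 h5, fun v => ⟨{A | A ∈ 𝓔 ∧ v ∈ A}, ?_, ?_, ?_, ?_⟩,
    fun e => e.1, ?_, ?_, ?_, ?_, ?_⟩
  · exact fun A hA => hA.1
  · intro A hA
    constructor
    · rintro ⟨-, h⟩ ⟨-, h'⟩
      exact h' h
    · intro h
      refine ⟨hA, ?_⟩
      by_contra hv
      exact h ⟨h2 A hA, hv⟩
  · rintro A ⟨-, h⟩ B hB hAB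
    exact ⟨hB, hAB h⟩
  · intro u
    refine (h5 v u).subset ?_
    rintro A ⟨⟨ha, hb⟩, hc⟩
    exact ⟨ha, hb, hc⟩
  · intro u v huv
    by_contra hne
    obtain ⟨A, hA, hu, hv⟩ := h6 u v hne
    have h := congrArg (fun x : {U : Set (Set V) // IsVert 𝓔 U} => A ∈ x.1) huv
    have h' : (A ∈ 𝓔 ∧ u ∈ A) = (A ∈ 𝓔 ∧ v ∈ A) := h
    exact hv (h'.mp ⟨hA, hu⟩).2
  · intro g v
    apply Subtype.ext
    show {A | A ∈ 𝓔 ∧ g • v ∈ A} = g • {A | A ∈ 𝓔 ∧ v ∈ A}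
    ext A
    rw [Set.mem_smul_set_iff_inv_smul_mem]
    simp only [Set.mem_ofPred_eq, smul_mem_iff h1]
    rw [Set.mem_smul_set_iff_inv_smul_mem, inv_inv]
  · exact fun e => e.2
  · intro g e
    rfl
  · rintro g v A hA hp hm ⟨U, hU⟩ hfix
    have hg : g • U = U := congrArg Subtype.val hfix
    by_cases hAU : A ∈ U
    · exact no_fixed hU g hg v A hAU hp hm
    · have hA' : Aᶜ ∈ U := by
        by_contra hc
        exact hAU ((hU.2.1 A hA).2 hc)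
      have hg' : g⁻¹ • U = U := by rw [inv_smul_eq_iff, hg]
      refine no_fixed hU g⁻¹ hg' v Aᶜ hA' hm ?_
      rw [inv_inv]
      filter_upwards [hp] with i hi using fun h => h hi

end Pool.Agent.TH386.J556
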